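import Pool.Agent.Helper14.TH7.StD

/-! # Project TH, levels `2·7^n` (MP_1d384c_nt): module ExB (from the edge function to the symbol) -/

set_option autoImplicit false

namespace Pool.Agent.Helper73.TH7

open Pool.Agent.Helper14.CV (Homog EqC act Tl StFar StFex)
open Pool.Agent.Helper76.TH7 (PlH rYH edgeH HPlA7)
open Pool.Agent.Helper93.TLH (HTy SymH)
open Pool.Agent.Helper14.TH7

section

variable {R : Type} [AddCommGroup R]

/-- the value of the path from `b/d` to `a/c` -/
private def EE (V : ℤ → ℤ → ℤ → ℤ → R) (a b c d : ℤ) : R :=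
  if (2 : ℤ) ∣ c then V a b c d
  else if (2 : ℤ) ∣ d then -V b (-a) d (-c)
  else V (a + b) b (c + d) d - V (a + b) (-a) (c + d) (-c)

variable {V : ℤ → ℤ → ℤ → ℤ → R}

private theorem ev0 {a b c d : ℤ} (hc : (2 : ℤ) ∣ c) : EE V a b c d = V a b c d := by
  unfold EE
  rw [if_pos hc]

private theorem ev1 {a b c d : ℤ} (hc : ¬ (2 : ℤ) ∣ c) (hd : (2 : ℤ) ∣ d) :
    EE V a b c d = -V b (-a) d (-c) := by
  unfold EE
  rw [if_neg hc, if_pos hd]

private theorem ev2 {a b c d : ℤ} (hc : ¬ (2 : ℤ) ∣ c) (hd : ¬ (2 : ℤ) ∣ d) :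
    EE V a b c d = V (a + b) b (c + d) d - V (a + b) (-a) (c + d) (-c) := by
  unfold EE
  rw [if_neg hc, if_neg hd]

private theorem not_both {a b c d : ℤ} (h : a * d - b * c = 1) (hc : (2 : ℤ) ∣ c) :
    ¬ (2 : ℤ) ∣ d := by
  rintro ⟨k, rfl⟩
  obtain ⟨l, rfl⟩ := hc
  have e : a * (2 * k) - b * (2 * l) = 2 * (a * k - b * l) := by ring
  omega

omit [AddCommGroup R] in
private theorem vcong {a b c d a' b' c' d' : ℤ} (h1 : a = a') (h2 : b = b') (h3 : c = c')
    (h4 : d = d') : V a b c d = V a' b' c' d' := by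
  subst h1 h2 h3 h4
  rfl

/-- the sign -/
private theorem ee_neg
    (hneg : ∀ a b c d : ℤ, a * d - b * c = 1 → (2 : ℤ) ∣ c → V (-a) (-b) (-c) (-d) = V a b c d)
    {a b c d : ℤ} (h : a * d - b * c = 1) : EE V (-a) (-b) (-c) (-d) = EE V a b c d := by
  by_cases hc : (2 : ℤ) ∣ c
  · rw [ev0 (Int.dvd_neg.2 hc), ev0 hc]
    exact hneg a b c d h hc
  · have hc' : ¬ (2 : ℤ) ∣ -c := fun h' => hc (Int.dvd_neg.1 h')
    by_cases hd : (2 : ℤ) ∣ d
    · rw [ev1 hc' (Int.dvd_neg.2 hd), ev1 hc hd, hneg b (-a) d (-c) (by linear_combination h) hd]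
    · have hd' : ¬ (2 : ℤ) ∣ -d := fun h' => hd (Int.dvd_neg.1 h')
      have hcd : (2 : ℤ) ∣ c + d := by omega
      rw [ev2 hc' hd', ev2 hc hd, ← hneg (a + b) b (c + d) d (by linear_combination h) hcd,
        ← hneg (a + b) (-a) (c + d) (-c) (by linear_combination h) hcd, neg_add, neg_add]

/-- the orientation -/
private theorem ee_S
    (hneg : ∀ a b c d : ℤ, a * d - b * c = 1 → (2 : ℤ) ∣ c → V (-a) (-b) (-c) (-d) = V a b c d)
    (hsq : ∀ a b c d : ℤ, a * d - b * c = 1 → (2 : ℤ) ∣ c → V a b c d =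
      V a (a + b) c (c + d) + V (a + 2 * b) b (c + 2 * d) d -
        V (a + 2 * b) (-(a + b)) (c + 2 * d) (-(c + d)))
    {a b c d : ℤ} (h : a * d - b * c = 1) : EE V b (-a) d (-c) = -EE V a b c d := by
  by_cases hc : (2 : ℤ) ∣ c
  · rw [ev1 (not_both h hc) (Int.dvd_neg.2 hc), ev0 hc, hneg a b c d h hc]
  · have hc' : ¬ (2 : ℤ) ∣ -c := fun h' => hc (Int.dvd_neg.1 h')
    by_cases hd : (2 : ℤ) ∣ d
    · rw [ev0 hd, ev1 hc hd, neg_neg]
    · have hcd : (2 : ℤ) ∣ c - d := by omega
      rw [ev2 hd hc', ev2 hc hd]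
      have h1 := hsq (a - b) b (c - d) d (by linear_combination h) hcd
      have h2 := hneg (a - b) a (c - d) c (by linear_combination h) hcd
      have h3 := hneg (a - b) b (c - d) d (by linear_combination h) hcd
      have e1 : V (b + -a) (-a) (d + -c) (-c) = V (a - b) a (c - d) c := by
        rw [← h2]
        exact vcong (by ring) rfl (by ring) rfl
      have e2 : V (b + -a) (-b) (d + -c) (-d) = V (a - b) b (c - d) d := by
        rw [← h3]
        exact vcong (by ring) rfl (by ring) rfl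
      have e3 : V (a - b) (a - b + b) (c - d) (c - d + d) = V (a - b) a (c - d) c :=
        vcong rfl (by ring) rfl (by ring)
      have e4 : V (a - b + 2 * b) b (c - d + 2 * d) d = V (a + b) b (c + d) d :=
        vcong (by ring) rfl (by ring) rfl
      have e5 : V (a - b + 2 * b) (-(a - b + b)) (c - d + 2 * d) (-(c - d + d)) =
          V (a + b) (-a) (c + d) (-c) := vcong (by ring) (by ring) (by ring) (by ring)
      rw [e1, e2, h1, e3, e4, e5]
      abel

/-- the triangle relation -/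
private theorem ee_tri
    (hneg : ∀ a b c d : ℤ, a * d - b * c = 1 → (2 : ℤ) ∣ c → V (-a) (-b) (-c) (-d) = V a b c d)
    (hsq : ∀ a b c d : ℤ, a * d - b * c = 1 → (2 : ℤ) ∣ c → V a b c d =
      V a (a + b) c (c + d) + V (a + 2 * b) b (c + 2 * d) d -
        V (a + 2 * b) (-(a + b)) (c + 2 * d) (-(c + d)))
    {a b c d : ℤ} (h : a * d - b * c = 1) :
    EE V a b c d = EE V a (a + b) c (c + d) + EE V (a + b) b (c + d) d := by
  by_cases hc : (2 : ℤ) ∣ c
  · have hd := not_both h hc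
    have hcd : ¬ (2 : ℤ) ∣ c + d := by omega
    rw [ev0 hc, ev0 hc, ev2 hcd hd, hsq a b c d h hc]
    have e1 : V (a + b + b) b (c + d + d) d = V (a + 2 * b) b (c + 2 * d) d :=
      vcong (by ring) rfl (by ring) rfl
    have e2 : V (a + b + b) (-(a + b)) (c + d + d) (-(c + d)) =
        V (a + 2 * b) (-(a + b)) (c + 2 * d) (-(c + d)) :=
      vcong (by ring) rfl (by ring) rfl
    rw [e1, e2]
    abel
  · by_cases hd : (2 : ℤ) ∣ d
    · have hcd : ¬ (2 : ℤ) ∣ c + d := by omega
      rw [ev1 hc hd, ev2 hc hcd, ev1 hcd hd]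
      have h1 := hsq b (-(a + b)) d (-(c + d)) (by linear_combination h) hd
      have hev : (2 : ℤ) ∣ c + (c + d) := by omega
      have e1 : V b (b + -(a + b)) d (d + -(c + d)) = V b (-a) d (-c) :=
        vcong rfl (by ring) rfl (by ring)
      have e2 : V (b + 2 * -(a + b)) (-(a + b)) (d + 2 * -(c + d)) (-(c + d)) =
          V (a + (a + b)) (a + b) (c + (c + d)) (c + d) := by
        rw [← hneg (a + (a + b)) (a + b) (c + (c + d)) (c + d) (by linear_combination h) hev]
        exact vcong (by ring) rfl (by ring) rfl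
      have e3 : V (b + 2 * -(a + b)) (-(b + -(a + b))) (d + 2 * -(c + d)) (-(d + -(c + d))) =
          V (a + (a + b)) (-a) (c + (c + d)) (-c) := by
        rw [← hneg (a + (a + b)) (-a) (c + (c + d)) (-c) (by linear_combination h) hev]
        exact vcong (by ring) (by ring) (by ring) (by ring)
      rw [e1, e2, e3] at h1
      rw [h1]
      abel
    · have hcd : (2 : ℤ) ∣ c + d := by omega
      rw [ev2 hc hd, ev1 hc hcd, ev0 hcd]
      abel

/-- equal values along the edges with even denominator at infinity are enough -/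
private theorem far2 (hfar : StFar) {H : ℤ → ℤ → R} (hH : Homog H)
    (h2 : ∀ a b c d : ℤ, a * d - b * c = 1 → (2 : ℤ) ∣ c → H a c = H b d) : EqC H 0 := by
  refine hfar R inferInstance H hH fun a b c d h => ?_
  have hac : a ≠ 0 ∨ c ≠ 0 := by
    by_contra h'
    push Not at h'
    rw [h'.1, h'.2] at h
    simp at h
  have hn : H (-a) (-c) = H a c := by
    have := hH (-1) a c (by norm_num) hac
    rwa [neg_one_mul, neg_one_mul] at this
  by_cases hc : (2 : ℤ) ∣ c
  · exact h2 a b c d h hc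
  · by_cases hd : (2 : ℤ) ∣ d
    · rw [h2 b (-a) d (-c) (by linear_combination h) hd, hn]
    · have hcd : (2 : ℤ) ∣ c + d := by omega
      rw [← h2 (a + b) b (c + d) d (by linear_combination h) hcd,
        h2 (a + b) (-a) (c + d) (-c) (by linear_combination h) hcd, hn]

end

private theorem eqc_of_sub {R : Type} [AddCommGroup R] {G H : ℤ → ℤ → R} (h : EqC (G - H) 0) :
    EqC G H := by
  obtain ⟨k, hk⟩ := h
  refine ⟨k, fun p q hpq => ?_⟩
  have h1 := hk p q hpq
  have h2 : G p q - H p q = k := by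
    have h6 : (0 : ℤ → ℤ → R) p q = 0 := rfl
    rw [h6, zero_add] at h1
    exact h1
  rw [← h2]
  abel

/-- Module ExB. -/
theorem hExB (ha : HPlA7) (hx : StFex) (hf : StFar) : TExB := by
  intro R _ r s F V hneg hsq hgam hgam2 hbase
  obtain ⟨G, hGh, hG⟩ := hx R inferInstance (EE V) (fun a b c d h =>
    ⟨ee_neg hneg h, ee_S hneg hsq h, ee_tri hneg hsq h⟩)
  refine ⟨G, ⟨hGh, ?_⟩, ?_⟩
  · intro α β γ δ hty hβ hγ
    have hdet0 : α * δ - β * γ ≠ 0 := hty.det_ne
    apply eqc_of_sub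
    have hH : Homog (act α β γ δ G - G) := by
      rw [sub_eq_add_neg]
      exact (hGh.act hdet0).add hGh.neg
    refine far2 hf hH ?_
    intro a b c d h hc
    rcases hty with ⟨hdet, h2γ⟩ | ⟨hdet, h2α, h2γ, h2δ⟩
    · have h1 := hG a b c d h
      have h2 := hG (α * a + β * c) (α * b + β * d) (γ * a + δ * c) (γ * b + δ * d)
        (by linear_combination (a * d - b * c) * hdet + h)
      rw [ev0 (dvd_add (Dvd.dvd.mul_right h2γ _) (Dvd.dvd.mul_left hc _)),
        hgam α β γ δ a b c d hdet h2γ hβ hγ h hc] at h2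
      rw [ev0 hc, ← h2] at h1
      show G (α * a + β * c) (γ * a + δ * c) - G a c = G (α * b + β * d) (γ * b + δ * d) - G b d
      rw [sub_eq_sub_iff_add_eq_add] at h1 ⊢
      rw [← h1, add_comm]
    · obtain ⟨α, rfl⟩ := h2α
      obtain ⟨γ, rfl⟩ := h2γ
      obtain ⟨δ, rfl⟩ := h2δ
      obtain ⟨c, rfl⟩ := hc
      have hdet' : 2 * α * δ - β * γ = 1 := by
        have e : 2 * (2 * α * δ - β * γ) = 2 := by linear_combination hdet
        omega
      have hγ' : (7 : ℤ) ^ (s + 1) ∣ γ := by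
        have hc7 : IsCoprime ((7 : ℤ) ^ (s + 1)) 2 := by
          apply IsCoprime.pow_left
          exact ⟨1, -3, by norm_num⟩
        exact hc7.dvd_of_dvd_mul_left hγ
      have h1 := hG a b (2 * c) d h
      have h' : a * d - 2 * b * c = 1 := by linear_combination h
      have h2 := hG (2 * α * b + β * d) (-(α * a + β * c)) (2 * (γ * b + δ * d))
        (-(γ * a + 2 * δ * c)) (by linear_combination (a * d - 2 * b * c) * hdet' + h')
      rw [ev0 (dvd_mul_right _ _), hgam2 α β γ δ a b c d hdet' hβ hγ' h'] at h2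
      rw [ev0 (dvd_mul_right _ _)] at h1
      rw [← h1] at h2
      have hnz : α * a + β * c ≠ 0 ∨ γ * a + 2 * δ * c ≠ 0 := by
        by_contra hz
        push Not at hz
        have e : (2 * α * b + β * d) * (-(γ * a + 2 * δ * c)) -
            (-(α * a + β * c)) * (2 * (γ * b + δ * d)) = 1 := by
          linear_combination (a * d - 2 * b * c) * hdet' + h'
        rw [hz.1, hz.2] at e
        simp at e
      have hn : G (-(α * a + β * c)) (-(γ * a + 2 * δ * c)) =
          G (α * a + β * c) (γ * a + 2 * δ * c) := by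
        have := hGh (-1) _ _ (by norm_num) hnz
        rwa [neg_one_mul, neg_one_mul] at this
      have hn2 : G (2 * α * a + β * (2 * c)) (2 * γ * a + 2 * δ * (2 * c)) =
          G (α * a + β * c) (γ * a + 2 * δ * c) := by
        have := hGh 2 _ _ (by norm_num) hnz
        rw [← this]
        congr 1 <;> ring
      rw [hn] at h2
      show G (2 * α * a + β * (2 * c)) (2 * γ * a + 2 * δ * (2 * c)) - G a (2 * c) =
        G (2 * α * b + β * d) (2 * γ * b + 2 * δ * d) - G b d
      have e3 : G (2 * α * b + β * d) (2 * γ * b + 2 * δ * d) =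
          G (2 * α * b + β * d) (2 * (γ * b + δ * d)) := by
        congr 1
        ring
      rw [hn2, e3]
      have h5 := sub_eq_iff_eq_add.1 h2
      rw [h5]
      abel
  · intro i
    funext x y
    obtain ⟨-, hb, hc⟩ := ha 0 r s x y
    have hev : (2 : ℤ) ∣ rYH 0 x y := by
      unfold rYH
      exact dvd_mul_right _ _
    have hdet : 1 * (1 + 7 ^ (0 + 1) * (x.val : ℤ) * rYH 0 x y) -
        (x.val : ℤ) * (7 * rYH 0 x y) = 1 := by ring
    have hb' := hbase x y 1 (x.val : ℤ) (rYH 0 x y) (1 + 7 ^ (0 + 1) * (x.val : ℤ) * rYH 0 x y)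
      hdet hev hb hc
    fin_cases i
    · show edgeH 0 1 (e3 0) 0 1 G x y = F 0 x y
      rw [← hb'.1]
      have h1 := hG 1 (x.val : ℤ) (7 * rYH 0 x y) (1 + 7 ^ (0 + 1) * (x.val : ℤ) * rYH 0 x y) hdet
      rw [ev0 (Dvd.dvd.mul_left hev _)] at h1
      rw [← h1]
      have e0 : e3 0 = 0 := rfl
      unfold edgeH
      rw [e0]
      congr 1
      · congr 1 <;> ring
      · congr 1 <;> ring
    · show edgeH 0 1 (e3 1) 0 1 G x y = F 1 x y
      rw [← hb'.2.1]
      have h1 := hG (1 + 2 * (x.val : ℤ)) (x.val : ℤ)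
        (7 * rYH 0 x y + 2 * (1 + 7 ^ (0 + 1) * (x.val : ℤ) * rYH 0 x y))
        (1 + 7 ^ (0 + 1) * (x.val : ℤ) * rYH 0 x y) (by ring)
      rw [ev0 (dvd_add (Dvd.dvd.mul_left hev _) (dvd_mul_right _ _))] at h1
      rw [← h1]
      have e1 : e3 1 = 2 := rfl
      unfold edgeH
      rw [e1]
      congr 1
      · congr 1 <;> ring
      · congr 1 <;> ring
    · show edgeH 0 1 (e3 2) 0 1 G x y = F 2 x y
      rw [← hb'.2.2]
      have h1 := hG (1 + 4 * (x.val : ℤ)) (x.val : ℤ)
        (7 * rYH 0 x y + 4 * (1 + 7 ^ (0 + 1) * (x.val : ℤ) * rYH 0 x y))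
        (1 + 7 ^ (0 + 1) * (x.val : ℤ) * rYH 0 x y) (by ring)
      rw [ev0 (dvd_add (Dvd.dvd.mul_left hev _) (Dvd.dvd.mul_right (by norm_num) _))] at h1
      rw [← h1]
      have e2 : e3 2 = 4 := rfl
      unfold edgeH
      rw [e2]
      congr 1
      · congr 1 <;> ring
      · congr 1 <;> ring

end Pool.Agent.Helper73.TH7
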